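import Pool.Agent.RichW.Main

/-!
MP_086d3c_co: palindromic factors of words, longest palindromic suffixes, rich words.
-/

namespace Pool.Agent.RichC

open Pool.Agent.RichW (Rich rich_infix rich_reverse rich_prefix rich_nil)

variable {α : Type*}

/-- the palindromic factors of `w` -/
def Pl (w : List α) : Set (List α) := {p | p <:+: w ∧ p.reverse = p}

/-- `f` or its reversal is a factor of `v` -/
def Fr (f v : List α) : Prop := f <:+: v ∨ f.reverse <:+: v

theorem rich_iff (w : List α) : Rich w ↔ (Pl w).ncard = w.length + 1 := Iff.rfl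

theorem Pl_mono {u v : List α} (h : u <:+: v) : Pl u ⊆ Pl v :=
  fun _ hp => ⟨hp.1.trans h, hp.2⟩

theorem Pl_reverse (w : List α) : Pl w.reverse = Pl w := by
  ext p
  constructor
  · rintro ⟨h1, h2⟩
    refine ⟨?_, h2⟩
    rw [← h2] at h1
    exact List.reverse_infix.1 h1
  · rintro ⟨h1, h2⟩
    refine ⟨?_, h2⟩
    rw [← h2]
    exact List.reverse_infix.2 h1

theorem Fr_rev_left {f v : List α} : Fr f.reverse v ↔ Fr f v := by
  unfold Fr
  rw [List.reverse_reverse]
  exact or_comm

theorem infix_reverse_iff {f v : List α} : f <:+: v.reverse ↔ f.reverse <:+: v := by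
  rw [← List.reverse_infix, List.reverse_reverse]

theorem Fr_rev_right {f v : List α} : Fr f v.reverse ↔ Fr f v := by
  unfold Fr
  rw [infix_reverse_iff, infix_reverse_iff, List.reverse_reverse]
  exact or_comm

theorem Fr.refl (v : List α) : Fr v v := Or.inl (List.infix_refl v)

theorem Fr.of_infix {f v : List α} (h : f <:+: v) : Fr f v := Or.inl h

theorem Fr.trans {a b c : List α} (h : Fr a b) (h' : Fr b c) : Fr a c := by
  rcases h with h | h <;> rcases h' with h' | h'
  · exact Or.inl (h.trans h')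
  · right
    exact (List.reverse_infix.2 h).trans h'
  · exact Or.inr (h.trans h')
  · left
    have := (List.reverse_infix.2 h).trans h'
    rwa [List.reverse_reverse] at this

theorem Fr.length_le {f v : List α} (h : Fr f v) : f.length ≤ v.length := by
  rcases h with h | h
  · exact h.length_le
  · have := h.length_le
    rwa [List.length_reverse] at this

theorem Fr.pl {f v : List α} (h : Fr f v) : Pl f ⊆ Pl v := by
  rcases h with h | h
  · exact Pl_mono h
  · rw [← Pl_reverse f]
    exact Pl_mono h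

theorem Fr.rich {f v : List α} (h : Fr f v) (hv : Rich v) : Rich f := by
  rcases h with h | h
  · exact rich_infix hv h
  · have := rich_reverse (rich_infix hv h)
    rwa [List.reverse_reverse] at this

/-! ### longest suffixes -/

theorem exists_longest_suffix (w : List α) (Q : List α → Prop) (h : ∃ s, s <:+ w ∧ Q s) :
    ∃ s, s <:+ w ∧ Q s ∧ ∀ t, t <:+ w → Q t → t.length ≤ s.length := by
  classical
  have hb : ∀ n, (∃ s, s <:+ w ∧ Q s ∧ s.length = n) → n ≤ w.length := by
    rintro n ⟨s, h1, _, h3⟩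
    rw [← h3]
    exact h1.length_le
  obtain ⟨s0, h1, h2⟩ := h
  have hex : ∃ n, (∃ s, s <:+ w ∧ Q s ∧ s.length = n) := ⟨_, s0, h1, h2, rfl⟩
  obtain ⟨n0, hn0⟩ := hex
  have h3 := Nat.findGreatest_spec (P := fun n => ∃ s, s <:+ w ∧ Q s ∧ s.length = n) (hb n0 hn0) hn0
  obtain ⟨s, h4, h5, h6⟩ := h3
  refine ⟨s, h4, h5, ?_⟩
  intro t ht hQ
  rw [h6]
  exact Nat.le_findGreatest ht.length_le ⟨t, ht, hQ, rfl⟩

/-- `p` is the longest palindromic suffix of `w` -/
def IsLps (w p : List α) : Prop :=
  p <:+ w ∧ p.reverse = p ∧ ∀ q, q <:+ w → q.reverse = q → q.length ≤ p.length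

theorem exists_lps (w : List α) : ∃ p, IsLps w p :=
  exists_longest_suffix w (fun p => p.reverse = p) ⟨[], List.nil_suffix, rfl⟩

theorem suffix_eq_of_length {a b w : List α} (ha : a <:+ w) (hb : b <:+ w)
    (h : a.length = b.length) : a = b :=
  (List.suffix_of_suffix_length_le ha hb h.le).eq_of_length h

theorem IsLps.unique {w p q : List α} (hp : IsLps w p) (hq : IsLps w q) : p = q :=
  suffix_eq_of_length hp.1 hq.1 (le_antisymm (hq.2.2 p hp.1 hp.2.1) (hp.2.2 q hq.1 hq.2.1))

/-- a proper palindromic suffix `p` of a palindrome `q` at the end of `w ++ [c]` is a factor of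
`w` -/
theorem infix_of_lt {w p q : List α} {c : α} (hp : p <:+ w ++ [c]) (hpp : p.reverse = p)
    (hq : q <:+ w ++ [c]) (hqq : q.reverse = q) (h : p.length < q.length) : p <:+: w := by
  have h1 : p <:+ q := List.suffix_of_suffix_length_le hp hq h.le
  have h2 : p <+: q := by
    rw [← hpp, ← hqq]
    exact List.reverse_prefix.2 h1
  obtain ⟨r, hr⟩ := h2
  obtain ⟨x, hx⟩ := hq
  have hr0 : r ≠ [] := by
    rintro rfl
    rw [List.append_nil] at hr
    rw [hr] at h
    exact lt_irrefl _ h
  obtain ⟨r', d, hrd⟩ := List.eq_nil_or_concat' r |>.resolve_left hr0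
  refine ⟨x, r', ?_⟩
  rw [← hr, hrd] at hx
  have h3 : (x ++ p ++ r') ++ [d] = w ++ [c] := by
    rw [← hx]; simp
  exact (List.append_inj' h3 rfl).1

theorem infix_snoc {p w : List α} {c : α} (h : p <:+: w ++ [c]) : p <:+: w ∨ p <:+ w ++ [c] := by
  obtain ⟨s, t, hst⟩ := h
  rcases List.eq_nil_or_concat' t with rfl | ⟨t', d, rfl⟩
  · right
    exact ⟨s, by simpa using hst⟩
  · left
    refine ⟨s, t', ?_⟩
    have h3 : (s ++ p ++ t') ++ [d] = w ++ [c] := by
      rw [← hst]; simp
    exact (List.append_inj' h3 rfl).1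

theorem Pl_snoc {w p : List α} {c : α} (hp : p ∈ Pl (w ++ [c])) :
    p ∈ Pl w ∨ IsLps (w ++ [c]) p := by
  rcases infix_snoc hp.1 with h | h
  · exact Or.inl ⟨h, hp.2⟩
  · obtain ⟨q, hq⟩ := exists_lps (w ++ [c])
    rcases Nat.lt_or_ge p.length q.length with hlt | hge
    · left
      exact ⟨infix_of_lt h hp.2 hq.1 hq.2.1 hlt, hp.2⟩
    · right
      have : p = q := suffix_eq_of_length h hq.1 (le_antisymm (hq.2.2 p h hp.2) hge)
      rw [this]
      exact hq

theorem Pl_snoc_eq {w q : List α} {c : α} (hq : IsLps (w ++ [c]) q) :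
    Pl (w ++ [c]) = insert q (Pl w) := by
  ext p
  constructor
  · intro hp
    rcases Pl_snoc hp with h | h
    · exact Or.inr h
    · left
      exact h.unique hq
  · rintro (rfl | h)
    · exact ⟨hq.1.isInfix, hq.2.1⟩
    · exact Pl_mono (List.prefix_append w [c]).isInfix h

theorem Pl_nil : Pl ([] : List α) = {[]} := by
  ext p
  constructor
  · rintro ⟨h1, _⟩
    exact List.eq_nil_of_infix_nil h1
  · rintro rfl
    exact ⟨List.infix_refl _, rfl⟩

theorem Pl_finite (w : List α) : (Pl w).Finite := by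
  induction w using List.reverseRecOn with
  | nil => rw [Pl_nil]; exact Set.finite_singleton _
  | append_singleton w c ih =>
    obtain ⟨q, hq⟩ := exists_lps (w ++ [c])
    rw [Pl_snoc_eq hq]
    exact ih.insert q

theorem Pl_card_le (w : List α) : (Pl w).ncard ≤ w.length + 1 := by
  induction w using List.reverseRecOn with
  | nil => rw [Pl_nil, Set.ncard_singleton]; exact Nat.le_refl _
  | append_singleton w c ih =>
    obtain ⟨q, hq⟩ := exists_lps (w ++ [c])
    rw [Pl_snoc_eq hq, List.length_append, List.length_singleton]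
    have := Set.ncard_insert_le q (Pl w)
    omega

theorem rich_lps_snoc {w p : List α} {c : α} (h : Rich (w ++ [c])) (hp : IsLps (w ++ [c]) p) :
    ¬ p <:+: w := by
  intro hpw
  rw [rich_iff, Pl_snoc_eq hp, Set.insert_eq_of_mem (show p ∈ Pl w from ⟨hpw, hp.2.1⟩),
    List.length_append, List.length_singleton] at h
  have := Pl_card_le w
  omega

theorem rich_lps {w p : List α} (hw : w ≠ []) (h : Rich w) (hp : IsLps w p) :
    ¬ p <:+: w.dropLast := by
  obtain ⟨w', c, rfl⟩ := List.eq_nil_or_concat' w |>.resolve_left hw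
  rw [List.dropLast_concat]
  exact rich_lps_snoc h hp

/-- a new palindromic suffix -/
theorem new_pal {w p : List α} {c : α} (hw : Rich w) (hp : p <:+ w ++ [c]) (hpp : p.reverse = p)
    (hn : ¬ p <:+: w) :
    Rich (w ++ [c]) ∧ IsLps (w ++ [c]) p ∧ Pl (w ++ [c]) = insert p (Pl w) := by
  have h1 : IsLps (w ++ [c]) p := by
    rcases Pl_snoc (show p ∈ Pl (w ++ [c]) from ⟨hp.isInfix, hpp⟩) with h | h
    · exact absurd h.1 hn
    · exact h
  have h2 := Pl_snoc_eq h1
  refine ⟨?_, h1, h2⟩
  rw [rich_iff, h2, Set.ncard_insert_of_notMem (fun h => hn h.1) (Pl_finite w)]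
  rw [rich_iff] at hw
  rw [hw, List.length_append, List.length_singleton]

theorem Fr.eq_of_pl {t x : List α} (hx : x <:+: t) (ht : Rich t) (h : Pl t ⊆ Pl x) : x = t := by
  have hxr := rich_infix ht hx
  rw [rich_iff] at ht hxr
  have h1 := Set.ncard_le_ncard h (Pl_finite x)
  have h2 := hx.length_le
  exact hx.eq_of_length (by omega)

/-! ### prefixes and suffixes -/

theorem exists_cons_suffix {w P : List α} (hw : w ≠ []) (hP : P <:+ w.tail) :
    ∃ a, (a :: P) <:+ w := by
  obtain ⟨y, hy⟩ := hP
  obtain ⟨b, w', rfl⟩ := List.exists_cons_of_ne_nil hw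
  simp only [List.tail_cons] at hy
  obtain ⟨y', d, hyd⟩ := List.eq_nil_or_concat' (b :: y) |>.resolve_left (by simp)
  refine ⟨d, y', ?_⟩
  rw [← hy, ← List.cons_append, hyd]
  simp

theorem suffix_tail_of_lt {w s : List α} (hs : s <:+ w) (h : s.length < w.length) :
    s <:+ w.tail := by
  apply List.suffix_of_suffix_length_le hs (List.tail_suffix w)
  rw [List.length_tail]
  omega

theorem prefix_dropLast_of_lt {w s : List α} (hs : s <+: w) (h : s.length < w.length) :
    s <+: w.dropLast := by
  apply List.prefix_of_prefix_length_le hs (List.dropLast_prefix w)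
  rw [List.length_dropLast]
  omega

/-- a factor that is strictly shorter is a factor of the tail or a proper initial part -/
theorem infix_cases {z w : List α} (hz : z <:+: w) : z <:+: w.tail ∨ z <+: w := by
  obtain ⟨s, t, rfl⟩ := hz
  rcases s with _ | ⟨b, s⟩
  · right
    exact ⟨t, by simp⟩
  · left
    exact ⟨s, t, by simp⟩

theorem infix_cases' {z w : List α} (hz : z <:+: w) : z <:+: w.dropLast ∨ z <:+ w := by
  obtain ⟨s, t, rfl⟩ := hz
  rcases List.eq_nil_or_concat' t with rfl | ⟨t', d, rfl⟩
  · right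
    exact ⟨s, by simp⟩
  · left
    refine ⟨s, t', ?_⟩
    rw [← List.append_assoc, List.dropLast_concat]

theorem inner {P w : List α} {a b : α} (h : (a :: (P ++ [b])) <:+: w) :
    P <:+: w.tail.dropLast := by
  obtain ⟨x, y, rfl⟩ := h
  have h1 : x ++ a :: (P ++ [b]) ++ y = (x ++ [a]) ++ (P ++ ([b] ++ y)) := by simp
  obtain ⟨x0, x', hx⟩ := List.exists_cons_of_ne_nil (show x ++ [a] ≠ [] by simp)
  obtain ⟨y', d, hy⟩ := List.eq_nil_or_concat' ([b] ++ y) |>.resolve_left (by simp)
  rw [h1, hx, hy]
  refine ⟨x', y', ?_⟩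
  rw [List.cons_append, List.tail_cons, ← List.append_assoc, ← List.append_assoc,
    List.dropLast_concat]

theorem tail_ne_nil_of_inner {P w : List α} {a b : α} (h : (a :: (P ++ [b])) <:+: w) :
    w.tail ≠ [] := by
  have h1 := h.length_le
  intro h2
  have h3 := congrArg List.length h2
  rw [List.length_tail] at h3
  simp at h1 h3
  omega

/-- the longest proper palindromic suffix of a rich word, extended on both sides, is not a
factor -/
theorem lpp_not_infix {w P : List α} {a b : α} (hw : Rich w) (hP : IsLps w.tail P) :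
    ¬ (a :: (P ++ [b])) <:+: w := by
  intro h
  exact rich_lps (tail_ne_nil_of_inner h) (rich_infix hw (List.tail_suffix w).isInfix) hP (inner h)

end Pool.Agent.RichC
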