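import Pool.Agent.RichC.Exist
import Pool.Agent.PolyTime.More

/-!
MP_086d3c_co: the criterion is decided in polynomial time.
-/

namespace Pool.Agent.RichC

open Pool.Agent.RichW (Rich rich_infix rich_reverse rich_prefix rich_nil)
open Pool.Agent.PolyTime

/-- all factors of `l` -/
def infs (l : List ℕ) : List (List ℕ) :=
  (List.range (l.length + 1)).flatMap fun i =>
    (List.range (l.length + 1)).map fun j => (l.drop i).take j

theorem mem_infs {l z : List ℕ} : z ∈ infs l ↔ z <:+: l := by
  unfold infs
  simp only [List.mem_flatMap, List.mem_range, List.mem_map]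
  constructor
  · rintro ⟨i, _, j, _, rfl⟩
    exact ((List.take_prefix j _).isInfix).trans (List.drop_suffix i l).isInfix
  · rintro ⟨s, t, rfl⟩
    refine ⟨s.length, by simp only [List.length_append]; omega, z.length,
      by simp only [List.length_append]; omega, ?_⟩
    rw [List.append_assoc, List.drop_left, List.take_left]

/-- test for being a factor -/
def isInf (z l : List ℕ) : Bool := (infs l).any fun y => decide (z = y)

theorem isInf_iff {z l : List ℕ} : isInf z l = true ↔ z <:+: l := by
  unfold isInf
  rw [List.any_eq_true, ← mem_infs]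
  constructor
  · rintro ⟨y, h1, h2⟩
    rw [decide_eq_true_eq] at h2
    rwa [h2]
  · intro h
    exact ⟨z, h, decide_eq_true rfl⟩

theorem isInf_iff' {z l : List ℕ} : isInf z l = false ↔ ¬ z <:+: l := by
  rw [← isInf_iff, Bool.not_eq_true]

section pt

variable {γ : Type} [PEnc γ]

@[fun_prop]
theorem pt_infs {f : γ → List ℕ} (hf : PolyTime f) : PolyTime (fun a => infs (f a)) := by
  have h : PolyTime infs := by
    unfold infs
    have hr : ∀ {δ : Type} [PEnc δ] {g : δ → List ℕ}, PolyTime g →
        PolyTime (fun a => List.range ((g a).length + 1)) := by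
      intro δ _ g hg
      exact PolyTime.range (by fun_prop) ((pbd_length hg).add (PBd.const 1))
    refine PolyTime.flatMap (hr PolyTime.id) ?_
    refine PolyTime.map (hr PolyTime.fst') ?_
    fun_prop
  exact h.comp hf

@[fun_prop]
theorem pt_isInf {f g : γ → List ℕ} (hf : PolyTime f) (hg : PolyTime g) :
    PolyTime (fun a => isInf (f a) (g a)) := by
  unfold isInf
  refine PolyTime.any (pt_infs hg) ?_
  exact PolyTime.decideEq (hf.comp PolyTime.fst') PolyTime.snd'

end pt

/-- test for richness: every letter creates a new palindrome -/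
def richB (w : List ℕ) : Bool :=
  (List.range w.length).all fun i => (infs (w.take (i + 1))).any fun p =>
    decide (p.reverse = p) && !(isInf p (w.take i))

theorem rich_iff_take {α : Type*} (w : List α) : Rich w ↔
    ∀ i < w.length, ∃ p, p <:+: w.take (i + 1) ∧ p.reverse = p ∧ ¬ p <:+: w.take i := by
  induction w using List.reverseRecOn with
  | nil =>
    constructor
    · intro _ i hi
      simp at hi
    · intro _
      exact rich_nil
  | append_singleton w c ih =>
    have hlen : (w ++ [c]).length = w.length + 1 := by simp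
    have htake : ∀ i, i ≤ w.length → (w ++ [c]).take i = w.take i := fun i hi =>
      List.take_append_of_le_length hi
    have hlast : (w ++ [c]).take (w.length + 1) = w ++ [c] := by
      rw [← hlen, List.take_length]
    have hw : (w ++ [c]).take w.length = w := by
      rw [htake _ le_rfl, List.take_length]
    constructor
    · intro h i hi
      have hwr : Rich w := rich_prefix h
      rw [hlen] at hi
      rcases Nat.lt_or_ge i w.length with h1 | h1
      · rw [htake _ (by omega), htake _ h1.le]
        exact ih.1 hwr i h1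
      · have : i = w.length := by omega
        subst this
        rw [hlast, hw]
        obtain ⟨q, hq⟩ := exists_lps (w ++ [c])
        exact ⟨q, hq.1.isInfix, hq.2.1, rich_lps_snoc h hq⟩
    · intro h
      have hwr : Rich w := by
        rw [ih]
        intro i hi
        have := h i (by rw [hlen]; omega)
        rwa [htake _ (by omega), htake _ hi.le] at this
      obtain ⟨p, h1, h2, h3⟩ := h w.length (by rw [hlen]; omega)
      rw [hlast] at h1
      rw [hw] at h3
      have h4 : p <:+ w ++ [c] := (infix_snoc h1).resolve_left h3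
      exact (new_pal hwr h4 h2 h3).1

theorem richB_iff (w : List ℕ) : richB w = true ↔ Rich w := by
  rw [rich_iff_take]
  unfold richB
  simp only [List.all_eq_true, List.mem_range, List.any_eq_true, mem_infs, Bool.and_eq_true,
    decide_eq_true_eq, Bool.not_eq_true', isInf_iff']

/-- the criterion -/
def critB (u v : List ℕ) : Bool :=
  (infs u).any fun z => (isInf z v || isInf z.reverse v) &&
    (infs u).all fun p => !(decide (p.reverse = p)) || (!(isInf p v) || isInf p z)

theorem critB_iff (u v : List ℕ) : critB u v = true ↔ ∃ z, Cm u v z := by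
  unfold critB Cm Fr Pl
  simp only [List.all_eq_true, List.any_eq_true, mem_infs, Bool.and_eq_true, isInf_iff, isInf_iff',
    decide_eq_true_eq, Bool.not_eq_true', decide_eq_false_iff_not, Bool.or_eq_true,
    Set.mem_setOf_eq]
  constructor
  · rintro ⟨z, h1, h2, h3⟩
    refine ⟨z, h1, h2, fun p hp hq => ⟨?_, hp.2⟩⟩
    rcases h3 p hp.1 with h4 | h4 | h4
    · exact absurd hp.2 h4
    · exact absurd hq.1 h4
    · exact h4
  · rintro ⟨z, h1, h2, h3⟩
    refine ⟨z, h1, h2, fun p hp => ?_⟩
    by_cases h4 : p.reverse = p
    · by_cases h5 : p <:+: v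
      · exact Or.inr (Or.inr (h3 p ⟨hp, h4⟩ ⟨h5, h4⟩).1)
      · exact Or.inr (Or.inl h5)
    · exact Or.inl h4

/-- the decision function -/
def decB (t : List ℕ × List ℕ × List ℕ) : Bool :=
  (t.2.1.all fun a => decide (a ∈ t.1)) && ((t.2.2.all fun a => decide (a ∈ t.1)) &&
    (richB t.2.1 && (richB t.2.2 && critB t.2.1 t.2.2)))

theorem pt_richB : PolyTime richB := by
  unfold richB
  refine PolyTime.all (by fun_prop) ?_
  refine PolyTime.any (by fun_prop) ?_
  have h1 : PolyTime (fun q : (List ℕ × ℕ) × List ℕ => decide (q.2.reverse = q.2)) :=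
    PolyTime.decideEq (by fun_prop) (by fun_prop)
  have h2 : PolyTime (fun q : (List ℕ × ℕ) × List ℕ =>
      isInf q.2 (List.take q.1.2 q.1.1)) := by fun_prop
  exact h1.and h2.not

theorem pt_critB : PolyTime (fun t : List ℕ × List ℕ => critB t.1 t.2) := by
  unfold critB
  refine PolyTime.any (by fun_prop) ?_
  refine PolyTime.and ?_ ?_
  · have h1 : PolyTime (fun q : (List ℕ × List ℕ) × List ℕ => isInf q.2 q.1.2) := by
      fun_prop
    have h2 : PolyTime (fun q : (List ℕ × List ℕ) × List ℕ =>
        isInf q.2.reverse q.1.2) := by fun_prop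
    exact h1.or h2
  refine PolyTime.all (by fun_prop) ?_
  have h1 : PolyTime (fun q : ((List ℕ × List ℕ) × List ℕ) × List ℕ =>
      decide (q.2.reverse = q.2)) := PolyTime.decideEq (by fun_prop) (by fun_prop)
  have h2 : PolyTime (fun q : ((List ℕ × List ℕ) × List ℕ) × List ℕ =>
      isInf q.2 q.1.1.2) := by fun_prop
  have h3 : PolyTime (fun q : ((List ℕ × List ℕ) × List ℕ) × List ℕ =>
      isInf q.2 q.1.2) := by fun_prop
  exact h1.not.or (h2.not.or h3)

theorem pt_decB : PolyTime decB := by
  unfold decB
  have h1 : PolyTime (fun t : List ℕ × List ℕ × List ℕ => richB t.2.1) :=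
    pt_richB.comp (by fun_prop)
  have h2 : PolyTime (fun t : List ℕ × List ℕ × List ℕ => richB t.2.2) :=
    pt_richB.comp (by fun_prop)
  have h3 : PolyTime (fun t : List ℕ × List ℕ × List ℕ => critB t.2.1 t.2.2) :=
    pt_critB.comp (f := fun t : List ℕ × List ℕ × List ℕ => (t.2.1, t.2.2)) (by fun_prop)
  refine PolyTime.and ?_ (PolyTime.and ?_ (PolyTime.and h1 (PolyTime.and h2 h3)))
  · exact PolyTime.all (by fun_prop) (by fun_prop)
  · exact PolyTime.all (by fun_prop) (by fun_prop)

theorem decB_iff (A u v : List ℕ) : decB (A, u, v) = true ↔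
    ∃ w : List ℕ, (∀ a ∈ w, a ∈ A) ∧ Rich w ∧ u <:+: w ∧ v <:+: w := by
  unfold decB
  simp only [List.all_eq_true, Bool.and_eq_true, decide_eq_true_eq, richB_iff, critB_iff]
  constructor
  · rintro ⟨h1, h2, h3, h4, z, h5⟩
    obtain ⟨w, h6, h7, h8, _, h9⟩ := exists_common h3 h4 h5
    refine ⟨w, fun a ha => ?_, h6, h7, h8⟩
    rcases h9 a ha with h | h
    · exact h1 a h
    · exact h2 a h
  · rintro ⟨w, h1, h2, h3, h4⟩
    exact ⟨fun a ha => h1 a (h3.subset ha), fun a ha => h1 a (h4.subset ha), rich_infix h2 h3,
      rich_infix h2 h4, necessity w h2 u v h3 h4⟩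

end Pool.Agent.RichC
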