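import Pool.Agent.RichC.Walk

/-!
MP_086d3c_co: existence of a common rich word of linear length.
-/

namespace Pool.Agent.RichC

open Pool.Agent.RichW (Rich rich_infix rich_reverse rich_prefix rich_nil)

variable {α : Type*}

theorem prefix_split {A B C : List α} (h : A <+: B ++ C) (hl : B.length ≤ A.length) :
    ∃ t, A = B ++ t ∧ t <+: C := by
  obtain ⟨t, ht⟩ := List.prefix_of_prefix_length_le (List.prefix_append B C) h hl
  refine ⟨t, ht.symm, ?_⟩
  rw [← ht] at h
  exact (List.prefix_append_right_inj B).1 h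

theorem prefix_reverse_split {t x : List α} (h : t <+: x.reverse) :
    ∃ x1 x2, x = x1 ++ x2 ∧ t = x2.reverse := by
  obtain ⟨r, hr⟩ := h
  refine ⟨r.reverse, t.reverse, ?_, (List.reverse_reverse t).symm⟩
  rw [← List.reverse_append, hr, List.reverse_reverse]

/-- walking until joining becomes possible -/
theorem Gd.reach {u v z z' : List α} (h : Gd u v z) (hu : u ≠ []) (hz' : Eqr z' z)
    (hc : ∃ c, Fr (z' ++ [c]) v) :
    ∃ y, (u ++ y).length ≤ 3 * u.length ∧ (∀ a ∈ y, a ∈ u) ∧ Gd (u ++ y) v z ∧
      (Fr (u ++ y) v ∨ Jn (u ++ y) v z) := by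
  obtain ⟨P, hP⟩ := exists_lps u.tail
  obtain ⟨x, hx⟩ : ∃ x, u = x ++ P := by
    obtain ⟨x, hx⟩ := hP.1.trans (List.tail_suffix u)
    exact ⟨x, hx.symm⟩
  have hxu : ∀ a ∈ x, a ∈ u := fun a ha => by rw [hx]; exact List.mem_append_left _ ha
  have hxl : x.length ≤ u.length := by rw [hx, List.length_append]; omega
  rcases h.walk hP hx x [] rfl with ⟨y, h1, h2, h3⟩ | h1
  · refine ⟨y, ?_, ?_, h2, h3⟩
    · have := h1.length_le
      rw [List.length_reverse] at this
      rw [List.length_append]
      omega
    · intro a ha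
      exact hxu a (List.mem_reverse.1 (h1.subset ha))
  obtain ⟨W, hW⟩ : ∃ W, W = u ++ x.reverse := ⟨_, rfl⟩
  rw [← hW] at h1
  have hWpal : W.reverse = W := by
    rw [hW, hx, List.reverse_append, List.reverse_reverse, List.reverse_append, hP.2.1]
    simp
  have hWl : W.length ≤ 2 * u.length := by
    rw [hW, List.length_append, List.length_reverse]
    omega
  have huW : u <+: W := by rw [hW]; exact List.prefix_append u _
  have hW0 : W ≠ [] := by
    intro h0
    rw [h0] at huW
    exact hu (List.prefix_nil.1 huW)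
  have hWu : ∀ a ∈ W, a ∈ u := by
    intro a ha
    rw [hW] at ha
    rcases List.mem_append.1 ha with h2 | h2
    · exact h2
    · exact hxu a (List.mem_reverse.1 h2)
  obtain ⟨P', hP'⟩ := exists_lps W.tail
  obtain ⟨ζ, hζ⟩ : ∃ ζ, W = ζ ++ P' := by
    obtain ⟨x, hx⟩ := hP'.1.trans (List.tail_suffix W)
    exact ⟨x, hx.symm⟩
  have hζ0 : ζ ≠ [] := by
    rintro rfl
    have h2 := hP'.1.length_le
    rw [List.nil_append] at hζ
    rw [List.length_tail, ← hζ] at h2
    have := List.length_pos_iff.2 hW0
    omega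
  have hζpos : 0 < ζ.length := List.length_pos_iff.2 hζ0
  have hζl : ζ.length ≤ 2 * u.length := by
    have : ζ.length ≤ W.length := by rw [hζ, List.length_append]; omega
    omega
  have hW2 : ζ ++ W = W ++ ζ.reverse := by
    have h2 : W = P' ++ ζ.reverse := by
      conv_lhs => rw [← hWpal, hζ, List.reverse_append, hP'.2.1]
    conv_lhs => rw [h2]
    rw [← List.append_assoc, ← hζ]
  have hWW2 : W <+: ζ ++ W := by
    rw [hW2]
    exact List.prefix_append _ _
  have hzW : z' <:+: W := by
    rcases hz' with rfl | rfl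
    · exact h.2.2.1.trans huW.isInfix
    · rw [← hWpal]
      exact List.reverse_infix.2 (h.2.2.1.trans huW.isInfix)
  have hzl : z'.length ≤ u.length := by
    rw [hz'.length]
    exact h.2.2.1.length_le
  -- the ends of the occurrences
  have hex : ∃ n, u.length ≤ n ∧ ∃ X, X <+: ζ ++ W ∧ z' <:+ X ∧ X.length = n := by
    by_contra hcon
    push Not at hcon
    have hall : ∀ k : ℕ, ∃ X, X <+: ζ ++ W ∧ z' <:+ X ∧ k ≤ X.length := by
      intro k
      induction k with
      | zero =>
        obtain ⟨s, t, hst⟩ := hzW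
        refine ⟨s ++ z', ?_, List.suffix_append _ _, Nat.zero_le _⟩
        refine List.IsPrefix.trans ?_ hWW2
        exact ⟨t, hst⟩
      | succ k ih =>
        obtain ⟨X, h2, h3, h4⟩ := ih
        have h5 : X.length < u.length := by
          by_contra h6
          push Not at h6
          exact hcon X.length h6 X h2 h3 rfl
        have h6 : X <+: W := List.prefix_of_prefix_length_le h2 hWW2 (h5.le.trans huW.length_le)
        refine ⟨ζ ++ X, (List.prefix_append_right_inj ζ).2 h6,
          h3.trans (List.suffix_append _ _), ?_⟩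
        rw [List.length_append]
        omega
    obtain ⟨X, h2, h3, h4⟩ := hall u.length
    exact hcon X.length h4 X h2 h3 rfl
  classical
  obtain ⟨n, ⟨hn1, X, hX1, hX2, hX3⟩, hmin⟩ : ∃ n, (u.length ≤ n ∧
      ∃ X, X <+: ζ ++ W ∧ z' <:+ X ∧ X.length = n) ∧
      ∀ m, (u.length ≤ m ∧ ∃ X, X <+: ζ ++ W ∧ z' <:+ X ∧ X.length = m) → n ≤ m :=
    ⟨Nat.find hex, Nat.find_spec hex, fun m hm => Nat.find_min' hex hm⟩
  have hn2 : n ≤ u.length + ζ.length := by
    by_contra hlt
    push Not at hlt
    obtain ⟨X', hXX, hX'⟩ := prefix_split hX1 (by omega)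
    have h2 : X.length = ζ.length + X'.length := by rw [hXX, List.length_append]
    have h3 : z' <:+ X' := by
      apply List.suffix_of_suffix_length_le hX2 ?_ (by omega)
      rw [hXX]
      exact List.suffix_append _ _
    have := hmin X'.length ⟨by omega, X', hX'.trans hWW2, h3, rfl⟩
    omega
  have hJX : Jn X v z := ⟨z', hz', hX2, hc⟩
  rcases Nat.lt_or_ge W.length X.length with hlt | hge
  · obtain ⟨t, hXt, ht⟩ := prefix_split (by rw [hW2] at hX1; exact hX1) hlt.le
    obtain ⟨x1, x2, hx12, rfl⟩ := prefix_reverse_split ht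
    rcases h1.walk hP' hζ x2 x1 hx12 with ⟨y, h2, h3, h4⟩ | h2
    · refine ⟨x.reverse ++ y, ?_, ?_, ?_, ?_⟩
      · have h5 := h2.length_le
        have h6 := congrArg List.length hXt
        rw [List.length_append, List.length_reverse] at h6
        rw [List.length_reverse] at h5
        rw [← List.append_assoc, ← hW, List.length_append]
        omega
      · intro a ha
        rcases List.mem_append.1 ha with h5 | h5
        · exact hxu a (List.mem_reverse.1 h5)
        · apply hWu
          rw [hζ, hx12]
          exact List.mem_append_left _ (List.mem_append_right _ (List.mem_reverse.1 (h2.subset h5)))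
      · rw [← List.append_assoc, ← hW]
        exact h3
      · rw [← List.append_assoc, ← hW]
        exact h4
    · refine ⟨x.reverse ++ x2.reverse, ?_, ?_, ?_, ?_⟩
      · rw [← List.append_assoc, ← hW, ← hXt]
        omega
      · intro a ha
        rcases List.mem_append.1 ha with h5 | h5
        · exact hxu a (List.mem_reverse.1 h5)
        · apply hWu
          rw [hζ, hx12]
          exact List.mem_append_left _ (List.mem_append_right _ (List.mem_reverse.1 h5))
      · rw [← List.append_assoc, ← hW]
        exact h2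
      · rw [← List.append_assoc, ← hW, ← hXt]
        exact Or.inr hJX
  · have hXW : X <+: u ++ x.reverse := by
      rw [← hW]
      exact List.prefix_of_prefix_length_le hX1 hWW2 hge
    obtain ⟨t, hXt, ht⟩ := prefix_split hXW (by omega)
    obtain ⟨x1, x2, hx12, rfl⟩ := prefix_reverse_split ht
    rcases h.walk hP hx x2 x1 hx12 with ⟨y, h2, h3, h4⟩ | h2
    · refine ⟨y, ?_, ?_, h3, h4⟩
      · have h5 := h2.length_le
        have h6 := congrArg List.length hXt
        rw [List.length_append, List.length_reverse] at h6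
        rw [List.length_reverse] at h5
        rw [List.length_append]
        omega
      · intro a ha
        apply hxu
        rw [hx12]
        exact List.mem_append_right _ (List.mem_reverse.1 (h2.subset ha))
    · refine ⟨x2.reverse, ?_, ?_, h2, ?_⟩
      · rw [← hXt]
        omega
      · intro a ha
        apply hxu
        rw [hx12]
        exact List.mem_append_right _ (List.mem_reverse.1 ha)
      · rw [← hXt]
        exact Or.inr hJX

/-- from a joinable state to `v` or its reversal -/
theorem Gd.finish {X v z : List α} (h : Gd X v z) (hJ : Jn X v z) : Fr X v ∨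
    ∃ y v', Eqr v' v ∧ Rich (X ++ y) ∧ v' <:+ X ++ y ∧ (∃ q, IsLps (X ++ y) q ∧ q <:+ v') ∧
      y.length ≤ 2 * v.length ∧ ∀ a ∈ y, a ∈ X ∨ a ∈ v := by
  classical
  obtain ⟨z2, hz2, hzX, c, hc⟩ := hJ
  -- the longest run
  obtain ⟨s, hs, hmax⟩ : ∃ s, Fr (z2 ++ s) v ∧ ∀ t, Fr (z2 ++ t) v → t.length ≤ s.length := by
    have hb : ∀ n, (∃ s, Fr (z2 ++ s) v ∧ s.length = n) → n ≤ v.length := by
      rintro n ⟨s, h1, h2⟩
      have := h1.length_le
      rw [List.length_append] at this
      omega
    have h1 : ∃ s, Fr (z2 ++ s) v ∧ s.length = 1 := ⟨[c], hc, rfl⟩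
    obtain ⟨s, h2, h3⟩ := Nat.findGreatest_spec (P := fun n => ∃ s, Fr (z2 ++ s) v ∧ s.length = n)
      (hb 1 h1) h1
    refine ⟨s, h2, fun t ht => ?_⟩
    rw [h3]
    exact Nat.le_findGreatest (hb _ ⟨t, ht, rfl⟩) ⟨t, ht, rfl⟩
  have hs0 : s ≠ [] := by
    rintro rfl
    have := hmax [c] hc
    simp at this
  have hnr : ∀ d, ¬ Fr (z2 ++ s ++ [d]) v := by
    intro d hd
    rw [List.append_assoc] at hd
    have := hmax _ hd
    rw [List.length_append, List.length_singleton] at this
    omega
  obtain ⟨hG, hl⟩ := h.joins hz2 hzX s hs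
  obtain ⟨q, hq, hqz⟩ := hl hs0
  obtain ⟨z', hz'⟩ : ∃ z', z' = z2 ++ s := ⟨_, rfl⟩
  obtain ⟨w', hw'⟩ : ∃ w', w' = X ++ s := ⟨_, rfl⟩
  rw [← hz'] at hs hnr hG hqz
  rw [← hw'] at hG hq
  have hsz : s.length ≤ z'.length := by rw [hz', List.length_append]; omega
  have hzw : z' <:+ w' := by
    obtain ⟨x, hx⟩ := hzX
    exact ⟨x, by rw [hw', hz', ← List.append_assoc, hx]⟩
  obtain ⟨v', hv', hzv⟩ : ∃ v', Eqr v' v ∧ z' <:+: v' := by
    rcases hs with h1 | h1
    · exact ⟨v, Or.inl rfl, h1⟩
    · exact ⟨v.reverse, Or.inr rfl, infix_reverse_iff.2 h1⟩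
  obtain ⟨p, r, hpr⟩ := hzv
  have hr : r = [] := by
    rcases r with _ | ⟨d, r⟩
    · rfl
    · exfalso
      apply hnr d
      rw [← hv'.fr_right]
      exact Or.inl ⟨p, r, by rw [← hpr]; simp⟩
  rw [hr, List.append_nil] at hpr
  have hpl : p.length + z'.length = v.length := by
    rw [← hv'.length, ← hpr, List.length_append]
  have hmemv : ∀ a ∈ v', a ∈ v := by
    intro a ha
    rcases hv' with h1 | h1
    · rwa [h1] at ha
    · rw [h1] at ha
      exact List.mem_reverse.1 ha
  have hmemz : ∀ a ∈ z', a ∈ v := fun a ha => hmemv a (by rw [← hpr]; exact List.mem_append_right _ ha)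
  have hmems : ∀ a ∈ s, a ∈ v := fun a ha => hmemz a (by rw [hz']; exact List.mem_append_right _ ha)
  rcases List.eq_nil_or_concat' p with hp | ⟨p0, e, hp⟩
  · right
    rw [hp, List.nil_append] at hpr
    refine ⟨s, v', hv', ?_, ?_, ⟨q, ?_, ?_⟩, ?_, ?_⟩
    · rw [← hw']; exact hG.1
    · rw [← hw', ← hpr]; exact hzw
    · rw [← hw']; exact hq
    · rw [← hpr]; exact hqz
    · omega
    · exact fun a ha => Or.inr (hmems a ha)
  -- turn around
  have hturn : Fr X v ∨ ∃ t, t.length ≤ z'.length ∧ Gd (w' ++ t) v z' ∧ z'.reverse <:+ w' ++ t ∧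
      ∀ a ∈ t, a ∈ v := by
    by_cases hqz' : q = z'
    · right
      refine ⟨[], Nat.zero_le _, ?_, ?_, ?_⟩
      · rw [List.append_nil]; exact hG
      · rw [List.append_nil, ← hqz', hq.2.1]; exact hq.1
      · intro a ha
        simp at ha
    · obtain ⟨ζ, hζ⟩ := hqz
      obtain ⟨y0, hy0⟩ := hzw
      have hqw : q ≠ w' := by
        rintro rfl
        apply hqz'
        apply List.IsSuffix.eq_of_length ⟨ζ, hζ⟩
        have h1 : q.length ≤ z'.length := by rw [← hζ, List.length_append]; omega
        have h2 : z'.length ≤ q.length := by rw [← hy0, List.length_append]; omega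
        omega
      have hx : w' = (y0 ++ ζ) ++ q := by rw [← hy0, ← hζ, List.append_assoc]
      have hζv : ∀ a ∈ ζ, a ∈ v := fun a ha => hmemz a (by
        rw [← hζ]; exact List.mem_append_left _ ha)
      have hζl : ζ.length ≤ z'.length := by rw [← hζ, List.length_append]; omega
      rcases hG.walk (hq.tail hqw) hx ζ y0 rfl with ⟨y, h1, h2, h3 | h3⟩ | h1
      · left
        refine Fr.trans (Or.inl ?_) h3
        rw [hw', List.append_assoc]
        exact (List.prefix_append X _).isInfix
      · right
        obtain ⟨z3, hz3, hz3w, d, hd⟩ := h3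
        have h4 : z3 = z'.reverse := by
          rcases hz3 with h5 | h5
          · exfalso
            rw [h5] at hd
            exact hnr d hd
          · exact h5
        refine ⟨y, ?_, h2, ?_, ?_⟩
        · have := h1.length_le
          rw [List.length_reverse] at this
          omega
        · rw [← h4]; exact hz3w
        · intro a ha
          exact hζv a (List.mem_reverse.1 (h1.subset ha))
      · right
        refine ⟨ζ.reverse, ?_, h1, ?_, ?_⟩
        · rw [List.length_reverse]; exact hζl
        · refine ⟨y0 ++ ζ, ?_⟩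
          rw [← hζ, List.reverse_append, hq.2.1, hx]
          simp
        · intro a ha
          exact hζv a (List.mem_reverse.1 ha)
  rcases hturn with h1 | ⟨t, ht1, ht2, ht3, ht4⟩
  · exact Or.inl h1
  right
  have hvr : z'.reverse ++ p.reverse = v'.reverse := by
    rw [← hpr, List.reverse_append]
  have hEv : Eqr v'.reverse v := by
    rcases hv' with h1 | h1
    · rw [h1]; exact Or.inr rfl
    · rw [h1, List.reverse_reverse]; exact Or.inl rfl
  obtain ⟨h1, h2⟩ := ht2.joins (Or.inr rfl) ht3 p.reverse (by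
    rw [hvr, hEv.fr_left]; exact Fr.refl v)
  rw [hvr] at h1 h2
  refine ⟨s ++ t ++ p.reverse, v'.reverse, hEv, ?_, ?_, ?_, ?_, ?_⟩
  · rw [← List.append_assoc, ← List.append_assoc, ← hw']
    exact h1.1
  · rw [← List.append_assoc, ← List.append_assoc, ← hw', ← hvr]
    obtain ⟨x, hx⟩ := ht3
    exact ⟨x, by rw [← List.append_assoc, hx]⟩
  · rw [← List.append_assoc, ← List.append_assoc, ← hw']
    apply h2
    rw [hp]
    simp
  · rw [List.length_append, List.length_append, List.length_reverse]
    omega
  · intro a ha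
    right
    rcases List.mem_append.1 ha with h3 | h3
    · rcases List.mem_append.1 h3 with h4 | h4
      · exact hmems a h4
      · exact ht4 a h4
    · exact hmemv a (by rw [← hpr]; exact List.mem_append_left _ (List.mem_reverse.1 h3))

/-- the palindromic closure of `v` -/
theorem exists_close {v : List α} (hv : Rich v) : ∃ w, Rich w ∧ v <:+: w ∧ v.reverse <:+: w ∧
    w.length ≤ 2 * v.length ∧ ∀ a ∈ w, a ∈ v := by
  obtain ⟨q, hq⟩ := exists_lps v
  obtain ⟨x, hx⟩ := hq.1
  have hxl : x.length ≤ v.length := by rw [← hx, List.length_append]; omega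
  refine ⟨v ++ x.reverse, rich_close hv hq hx.symm [] x rfl, (List.prefix_append _ _).isInfix,
    ?_, ?_, ?_⟩
  · refine (List.IsSuffix.isInfix ⟨x, ?_⟩)
    conv_rhs => rw [← hx]
    conv_lhs => rw [← hx]
    rw [List.reverse_append, hq.2.1, List.append_assoc]
  · rw [List.length_append, List.length_reverse]
    omega
  · intro a ha
    rcases List.mem_append.1 ha with h | h
    · exact h
    · rw [← hx]
      exact List.mem_append_left _ (List.mem_reverse.1 h)

/-- **Existence.** -/
theorem exists_common {u v z : List α} (hu : Rich u) (hv : Rich v) (h : Cm u v z) :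
    ∃ w, Rich w ∧ u <:+: w ∧ v <:+: w ∧ w.length ≤ 3 * (u.length + v.length) ∧
      ∀ a ∈ w, a ∈ u ∨ a ∈ v := by
  have htriv : Fr u v → ∃ w, Rich w ∧ u <:+: w ∧ v <:+: w ∧
      w.length ≤ 3 * (u.length + v.length) ∧ ∀ a ∈ w, a ∈ u ∨ a ∈ v := by
    intro hf
    obtain ⟨w, h1, h2, h3, h4, h5⟩ := exists_close hv
    refine ⟨w, h1, ?_, h2, by omega, fun a ha => Or.inr (h5 a ha)⟩
    rcases hf with hf | hf
    · exact hf.trans h2
    · have := List.reverse_infix.2 hf
      rw [List.reverse_reverse] at this
      exact this.trans h3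
  have hG : Gd u v z := ⟨hu, hv, h⟩
  by_cases hu0 : u = []
  · exact htriv (Or.inl (by rw [hu0]; exact List.nil_infix))
  -- the final step
  have hend : ∀ X y v' : List α, u <+: X → (X.length ≤ 3 * u.length) → (∀ a ∈ X, a ∈ u) →
      Eqr v' v → Rich (X ++ y) → v' <:+ X ++ y → (∃ q, IsLps (X ++ y) q ∧ q <:+ v') →
      y.length ≤ 2 * v.length → (∀ a ∈ y, a ∈ X ∨ a ∈ v) →
      ∃ w, Rich w ∧ u <:+: w ∧ v <:+: w ∧
      w.length ≤ 3 * (u.length + v.length) ∧ ∀ a ∈ w, a ∈ u ∨ a ∈ v := by
    rintro X y v' h1 h2 h3 h4 h5 h6 ⟨q, h7, h8⟩ h9 h10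
    have hXy : ∀ a ∈ X ++ y, a ∈ u ∨ a ∈ v := by
      intro a ha
      rcases List.mem_append.1 ha with h | h
      · exact Or.inl (h3 a h)
      · rcases h10 a h with h | h
        · exact Or.inl (h3 a h)
        · exact Or.inr h
    rcases h4 with h4 | h4
    · refine ⟨X ++ y, h5, (h1.trans (List.prefix_append X y)).isInfix, ?_, ?_, hXy⟩
      · rw [← h4]; exact h6.isInfix
      · rw [List.length_append]; omega
    · obtain ⟨ζ, hζ⟩ := h8
      obtain ⟨y0, hy0⟩ := h6
      have hζl : ζ.length ≤ v.length := by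
        have := congrArg List.length hζ
        rw [List.length_append, h4, List.length_reverse] at this
        omega
      refine ⟨X ++ y ++ ζ.reverse, rich_close h5 h7 (x := y0 ++ ζ) ?_ y0 ζ rfl,
        ((h1.trans (List.prefix_append X y)).trans (List.prefix_append _ _)).isInfix, ?_, ?_, ?_⟩
      · rw [← hy0, ← hζ, List.append_assoc]
      · refine List.IsSuffix.isInfix ⟨y0 ++ ζ, ?_⟩
        have h11 : v = q ++ ζ.reverse := by
          have h12 : v = v'.reverse := by rw [h4, List.reverse_reverse]
          rw [h12, ← hζ, List.reverse_append, h7.2.1]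
        rw [h11, ← hy0, ← hζ]
        simp
      · rw [List.length_append, List.length_append, List.length_reverse]
        omega
      · intro a ha
        rcases List.mem_append.1 ha with h | h
        · exact hXy a h
        · right
          have h12 : a ∈ v' := by
            rw [← hζ]
            exact List.mem_append_left _ (List.mem_reverse.1 h)
          rw [h4] at h12
          exact List.mem_reverse.1 h12
  by_cases hzv : v.length ≤ z.length
  · -- `v` or its reversal is a factor of `u`
    have h1 : Eqr z v := Eqr.of_fr h.2.1 hzv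
    obtain ⟨w, h2, h3, h4, h5, h6⟩ := exists_close hu
    refine ⟨w, h2, h3, ?_, by omega, fun a ha => Or.inl (h6 a ha)⟩
    rcases h1 with rfl | h1
    · exact h.1.trans h3
    · have h7 : v = z.reverse := by rw [h1, List.reverse_reverse]
      rw [h7]
      exact (List.reverse_infix.2 h.1).trans h4
  push Not at hzv
  -- some version of `z` can be prolonged
  obtain ⟨z', hz', hc⟩ : ∃ z', Eqr z' z ∧ ∃ c, Fr (z' ++ [c]) v := by
    have key : ∀ v' : List α, Eqr v' v → z <:+: v' → ∃ z', Eqr z' z ∧ ∃ c, Fr (z' ++ [c]) v := by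
      rintro v' hv' ⟨s, t, hst⟩
      rcases t with _ | ⟨d, t⟩
      · rcases List.eq_nil_or_concat' s with rfl | ⟨s', e, rfl⟩
        · exfalso
          rw [List.append_nil, List.nil_append] at hst
          have := hv'.length
          rw [← hst] at this
          omega
        · refine ⟨z.reverse, Or.inr rfl, e, ?_⟩
          rw [← hv'.fr_right]
          right
          refine ⟨s', [], ?_⟩
          rw [← hst]
          simp
      · refine ⟨z, Or.inl rfl, d, ?_⟩
        rw [← hv'.fr_right]
        exact Or.inl ⟨s, t, by rw [← hst]; simp⟩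
    rcases h.2.1 with h1 | h1
    · exact key v (Or.inl rfl) h1
    · exact key v.reverse (Or.inr rfl) (infix_reverse_iff.2 h1)
  obtain ⟨y, h1, h2, h3, h4⟩ := hG.reach hu0 hz' hc
  have hFr : Fr (u ++ y) v → Fr u v := fun h => Fr.trans (Or.inl (List.prefix_append u y).isInfix) h
  rcases h4 with h4 | h4
  · exact htriv (hFr h4)
  · rcases h3.finish h4 with h5 | ⟨y', v', h5, h6, h7, h8, h9, h10⟩
    · exact htriv (hFr h5)
    · refine hend (u ++ y) y' v' (List.prefix_append u y) h1 ?_ h5 h6 h7 h8 h9 h10
      intro a ha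
      rcases List.mem_append.1 ha with h | h
      · exact h
      · exact h2 a h

/-- **The criterion.** -/
theorem criterion {u v : List α} (hu : Rich u) (hv : Rich v) :
    (∃ w, Rich w ∧ u <:+: w ∧ v <:+: w) ↔ ∃ z, Cm u v z := by
  constructor
  · rintro ⟨w, h1, h2, h3⟩
    exact necessity w h1 u v h2 h3
  · rintro ⟨z, h⟩
    obtain ⟨w, h1, h2, h3, _⟩ := exists_common hu hv h
    exact ⟨w, h1, h2, h3⟩

end Pool.Agent.RichC
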