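import Pool.Agent.RichC.Basic

/-!
MP_086d3c_co: factors of a rich word have a common factor that contains all their common
palindromes.
-/

namespace Pool.Agent.RichC

open Pool.Agent.RichW (Rich rich_infix rich_reverse rich_prefix rich_nil)

variable {α : Type*}

/-- `z` is a factor of `u`, it or its reversal is a factor of `v`, and every palindrome that is a
factor of both `u` and `v` is a factor of `z` -/
def Cm (u v z : List α) : Prop := z <:+: u ∧ Fr z v ∧ ∀ p, p ∈ Pl u → p ∈ Pl v → p ∈ Pl z

theorem Cm.swap {u v z : List α} (h : Cm u v z) : ∃ z', Cm v u z' := by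
  obtain ⟨h1, h2, h3⟩ := h
  rcases h2 with h2 | h2
  · exact ⟨z, h2, Or.inl h1, fun p hp hq => h3 p hq hp⟩
  · refine ⟨z.reverse, h2, Fr_rev_left.2 (Or.inl h1), fun p hp hq => ?_⟩
    rw [Pl_reverse]
    exact h3 p hq hp

theorem nec_aux {w' u v : List α} {c : α} (hw : Rich (w' ++ [c])) (hu : u <:+: w')
    (hv : v <:+ w' ++ [c]) (hv0 : ¬ v <:+: w')
    (ih : ∀ u v, u <:+: w' → v <:+: w' → ∃ z, Cm u v z) : ∃ z, Cm u v z := by
  obtain ⟨q, hq⟩ := exists_lps (w' ++ [c])
  have hqn := rich_lps_snoc hw hq
  have hv1 : v ≠ [] := by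
    rintro rfl
    exact hv0 (List.nil_infix)
  obtain ⟨v', d, rfl⟩ := List.eq_nil_or_concat' v |>.resolve_left hv1
  have hdc : d = c ∧ v' <:+ w' := by
    obtain ⟨x, hx⟩ := hv
    rw [← List.append_assoc] at hx
    have h1 := List.append_inj' hx rfl
    exact ⟨by simpa using h1.2, ⟨x, h1.1⟩⟩
  obtain ⟨rfl, hv'⟩ := hdc
  rcases Nat.lt_or_ge (v' ++ [d]).length q.length with hlt | hge
  · -- the reversal of `v` occurs before
    have h1 : (v' ++ [d]).reverse <:+: w' := by
      have h2 : v' ++ [d] <:+ q := List.suffix_of_suffix_length_le hv hq.1 hlt.le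
      have h3 : (v' ++ [d]).reverse <+: q := by
        rw [← hq.2.1]
        exact List.reverse_prefix.2 h2
      have h4 : (v' ++ [d]).reverse <+: q.dropLast :=
        prefix_dropLast_of_lt h3 (by rw [List.length_reverse]; exact hlt)
      have h5 : q.dropLast <:+: w' := by
        have hq0 : q ≠ [] := by
          rintro rfl
          simp at hlt
        obtain ⟨q', e, rfl⟩ := List.eq_nil_or_concat' q |>.resolve_left hq0
        rw [List.dropLast_concat]
        obtain ⟨x, hx⟩ := hq.1
        rw [← List.append_assoc] at hx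
        exact ⟨x, [], by simpa using (List.append_inj' hx rfl).1⟩
      exact h4.isInfix.trans h5
    obtain ⟨z, h2, h3, h4⟩ := ih u _ hu h1
    refine ⟨z, h2, Fr_rev_right.1 h3, fun p hp hq => h4 p hp ?_⟩
    rw [Pl_reverse]
    exact hq
  · obtain ⟨z, h2, h3, h4⟩ := ih u v' hu hv'.isInfix
    refine ⟨z, h2, h3.trans (Or.inl (List.prefix_append v' [d]).isInfix), fun p hp hpv => ?_⟩
    rcases Pl_snoc hpv with h5 | h5
    · exact h4 p hp h5
    · exfalso
      have h6 : q <:+ v' ++ [d] := List.suffix_of_suffix_length_le hq.1 hv hge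
      have h7 : IsLps (v' ++ [d]) q :=
        ⟨h6, hq.2.1, fun r hr hrr => hq.2.2 r (hr.trans hv) hrr⟩
      have h8 : p = q := h5.unique h7
      apply hqn
      rw [← h8]
      exact hp.1.trans hu

theorem necessity (w : List α) (hw : Rich w) : ∀ u v : List α, u <:+: w → v <:+: w →
    ∃ z, Cm u v z := by
  induction hn : w.length using Nat.strong_induction_on generalizing w with
  | _ n ih =>
    intro u v hu hv
    have key : ∀ w0 : List α, w0 <:+: w → w0.length < w.length → ∀ u v : List α, u <:+: w0 →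
        v <:+: w0 → ∃ z, Cm u v z := fun w0 h1 h2 =>
      ih w0.length (by rw [← hn]; exact h2) w0 (rich_infix hw h1) rfl
    by_cases hw0 : w = []
    · subst hw0
      have h1 := List.eq_nil_of_infix_nil hu
      have h2 := List.eq_nil_of_infix_nil hv
      subst h1 h2
      exact ⟨[], List.infix_refl _, Fr.refl _, fun p hp _ => hp⟩
    have hpos : 0 < w.length := List.length_pos_iff.2 hw0
    have kt := key w.tail (List.tail_suffix w).isInfix (by rw [List.length_tail]; omega)
    have kd := key w.dropLast (List.dropLast_prefix w).isInfix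
      (by rw [List.length_dropLast]; omega)
    obtain ⟨w', c, hwc⟩ := List.eq_nil_or_concat' w |>.resolve_left hw0
    have hdl : w.dropLast = w' := by rw [hwc, List.dropLast_concat]
    by_cases hud : u <:+: w.dropLast
    · by_cases hvd : v <:+: w.dropLast
      · exact kd u v hud hvd
      · have hvs : v <:+ w := (infix_cases' hv).resolve_left hvd
        rw [hdl] at hud hvd kd
        rw [hwc] at hvs hw
        exact nec_aux hw hud hvs hvd kd
    · have hus : u <:+ w := (infix_cases' hu).resolve_left hud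
      by_cases hvd : v <:+: w.dropLast
      · rw [hdl] at hud hvd kd
        rw [hwc] at hus hw
        obtain ⟨z, hz⟩ := nec_aux hw hvd hus hud kd
        exact hz.swap
      · have hvs : v <:+ w := (infix_cases' hv).resolve_left hvd
        rcases le_total u.length v.length with h | h
        · have h1 : u <:+ v := List.suffix_of_suffix_length_le hus hvs h
          exact ⟨u, List.infix_refl u, Or.inl h1.isInfix, fun p hp _ => hp⟩
        · have h1 : v <:+ u := List.suffix_of_suffix_length_le hvs hus h
          exact ⟨v, h1.isInfix, Fr.refl v, fun p _ hp => hp⟩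

/-- in a rich word the class of a factor is determined by its palindromic factors -/
theorem Fr_of_pl {w t z : List α} (hw : Rich w) (ht : Fr t w) (hz : Fr z w)
    (h : ∀ p, p ∈ Pl t → p ∈ Pl z) : Fr t z := by
  obtain ⟨t', ht', hFt, hPt⟩ : ∃ t', t' <:+: w ∧ (∀ y, Fr t y ↔ Fr t' y) ∧ Pl t' = Pl t := by
    rcases ht with h1 | h1
    · exact ⟨t, h1, fun _ => Iff.rfl, rfl⟩
    · exact ⟨t.reverse, h1, fun _ => Fr_rev_left.symm, Pl_reverse t⟩
  obtain ⟨z', hz', hFz, hPz⟩ : ∃ z', z' <:+: w ∧ (∀ y, Fr y z ↔ Fr y z') ∧ Pl z' = Pl z := by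
    rcases hz with h1 | h1
    · exact ⟨z, h1, fun _ => Iff.rfl, rfl⟩
    · exact ⟨z.reverse, h1, fun _ => Fr_rev_right.symm, Pl_reverse z⟩
  rw [hFt, hFz]
  obtain ⟨x, h1, h2, h3⟩ := necessity w hw t' z' ht' hz'
  have h4 : x = t' := by
    apply Fr.eq_of_pl h1 (rich_infix hw ht')
    intro p hp
    refine h3 p hp ?_
    rw [hPz]
    rw [hPt] at hp
    exact h p hp
  rw [← h4]
  exact h2

end Pool.Agent.RichC
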