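import Pool.Agent.RichC.Nec

/-!
MP_086d3c_co: the two ways of adding one letter.
-/

namespace Pool.Agent.RichC

open Pool.Agent.RichW (Rich rich_infix rich_reverse rich_prefix rich_nil)

variable {α : Type*}

/-- a good state: `w` and `v` are rich and `z` is a common factor (up to reversal) that contains
all the common palindromes -/
def Gd (w v z : List α) : Prop := Rich w ∧ Rich v ∧ Cm w v z

/-- `z'` is `z` or its reversal -/
def Eqr (z' z : List α) : Prop := z' = z ∨ z' = z.reverse

theorem Eqr.symm {z' z : List α} (h : Eqr z' z) : Eqr z z' := by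
  rcases h with rfl | rfl
  · exact Or.inl rfl
  · exact Or.inr (List.reverse_reverse z).symm

theorem Eqr.fr_left {z' z y : List α} (h : Eqr z' z) : Fr z' y ↔ Fr z y := by
  rcases h with rfl | rfl
  · exact Iff.rfl
  · exact Fr_rev_left

theorem Eqr.fr_right {z' z y : List α} (h : Eqr z' z) : Fr y z' ↔ Fr y z := by
  rcases h with rfl | rfl
  · exact Iff.rfl
  · exact Fr_rev_right

theorem Eqr.pl {z' z : List α} (h : Eqr z' z) : Pl z' = Pl z := by
  rcases h with rfl | rfl
  · rfl
  · exact Pl_reverse z

theorem Eqr.length {z' z : List α} (h : Eqr z' z) : z'.length = z.length := by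
  rcases h with rfl | rfl
  · rfl
  · exact List.length_reverse

theorem Eqr.of_fr {x y : List α} (h : Fr x y) (hl : y.length ≤ x.length) : Eqr x y := by
  rcases h with h | h
  · left
    exact h.eq_of_length (le_antisymm h.length_le hl)
  · right
    have h1 : x.reverse = y := by
      apply h.eq_of_length
      have := h.length_le
      rw [List.length_reverse] at this ⊢
      omega
    rw [← h1, List.reverse_reverse]

theorem Gd.length_le {w v z f : List α} (h : Gd w v z) (hf : Fr f w) (hfv : Fr f v) :
    f.length ≤ z.length := by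
  have h1 : Fr f z := Fr_of_pl h.1 hf (Or.inl h.2.2.1) (fun p hp => h.2.2.2.2 p (hf.pl hp) (hfv.pl hp))
  exact h1.length_le

/-- joining: append a letter that prolongs `z` inside `v` -/
theorem Gd.join {w v z z' : List α} {c : α} (h : Gd w v z) (hz' : Eqr z' z) (hzw : z' <:+ w)
    (hc : Fr (z' ++ [c]) v) :
    Gd (w ++ [c]) v (z' ++ [c]) ∧ ∃ q, IsLps (w ++ [c]) q ∧ q <:+ z' ++ [c] := by
  obtain ⟨hw, hv, h1, h2, h3⟩ := h
  have hzc : Rich (z' ++ [c]) := hc.rich hv
  obtain ⟨q, hq⟩ := exists_lps (z' ++ [c])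
  have hqz : ¬ q <:+: z' := rich_lps_snoc hzc hq
  have hqv : q ∈ Pl v := hc.pl ⟨hq.1.isInfix, hq.2.1⟩
  have hqw : ¬ q <:+: w := by
    intro hqw
    have := h3 q ⟨hqw, hq.2.1⟩ hqv
    rw [← hz'.pl] at this
    exact hqz this.1
  have hzs : z' ++ [c] <:+ w ++ [c] := by
    obtain ⟨x, hx⟩ := hzw
    exact ⟨x, by rw [← List.append_assoc, hx]⟩
  obtain ⟨n1, n2, n3⟩ := new_pal hw (hq.1.trans hzs) hq.2.1 hqw
  refine ⟨⟨n1, hv, hzs.isInfix, hc, ?_⟩, q, n2, hq.1⟩
  intro p hp hpv
  rw [n3] at hp
  rcases hp with rfl | hp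
  · exact ⟨hq.1.isInfix, hq.2.1⟩
  · have h4 := h3 p hp hpv
    rw [← hz'.pl] at h4
    exact Pl_mono (List.prefix_append z' [c]).isInfix h4

theorem aPa_rev {P : List α} {a : α} (hP : P.reverse = P) :
    (a :: (P ++ [a])).reverse = a :: (P ++ [a]) := by
  rw [List.reverse_cons, List.reverse_append, hP]
  rfl

/-- palindromic step -/
theorem Gd.pstep {w v z P : List α} {a : α} (h : Gd w v z) (hP : IsLps w.tail P)
    (haP : (a :: P) <:+ w) (hn : ¬ (a :: (P ++ [a])) <:+: v) : Gd (w ++ [a]) v z := by
  obtain ⟨hw, hv, h1, h2, h3⟩ := h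
  have hs : (a :: (P ++ [a])) <:+ w ++ [a] := by
    obtain ⟨x, hx⟩ := haP
    exact ⟨x, by rw [← hx]; simp⟩
  obtain ⟨n1, n2, n3⟩ := new_pal hw hs (aPa_rev hP.2.1) (lpp_not_infix hw hP)
  refine ⟨n1, hv, h1.trans (List.prefix_append w [a]).isInfix, h2, ?_⟩
  intro p hp hpv
  rw [n3] at hp
  rcases hp with rfl | hp
  · exact absurd hpv.1 hn
  · exact h3 p hp hpv

/-- right extension of `s` inside `v` -/
theorem rext_aux {w v s P : List α} {a : α} (hv : Rich v) (hs : s <:+ w)
    (hsw : s.length < w.length) (hP : IsLps w.tail P) (hPs : P.length < s.length)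
    (hin : (a :: (P ++ [a])) <:+: v) (hsv : s <:+: v) : ∃ c, Fr (s ++ [c]) v := by
  obtain ⟨x, y, hxy⟩ := hsv
  rcases y with _ | ⟨c, y⟩
  swap
  · exact ⟨c, Or.inl ⟨x, y, by rw [← hxy]; simp⟩⟩
  rw [List.append_nil] at hxy
  have hsv : s <:+ v := ⟨x, hxy⟩
  have hv0 : v ≠ [] := by
    rintro rfl
    have := hsv.length_le
    rw [List.length_nil] at this
    omega
  have hPs' : P <:+ s := List.suffix_of_suffix_length_le (hP.1.trans (List.tail_suffix w)) hs hPs.le
  obtain ⟨R, hR⟩ := exists_lps v.tail
  have hPv : P <:+ v.tail := by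
    apply suffix_tail_of_lt (hPs'.trans hsv)
    have := hsv.length_le
    omega
  have h1 : P.length ≤ R.length := hR.2.2 P hPv hP.2.1
  have hRn : ¬ R <:+: v.tail.dropLast :=
    rich_lps (tail_ne_nil_of_inner hin) (rich_infix hv (List.tail_suffix v).isInfix) hR
  have h2 : P.length < R.length := by
    rcases Nat.lt_or_ge P.length R.length with h | h
    · exact h
    · exfalso
      have h3 : P = R := suffix_eq_of_length hPv hR.1 (le_antisymm h1 h)
      apply hRn
      rw [← h3]
      exact inner hin
  have h3 : s.length < R.length := by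
    by_contra hcon
    push Not at hcon
    have h4 : R <:+ s := List.suffix_of_suffix_length_le (hR.1.trans (List.tail_suffix v)) hsv hcon
    have h5 : R <:+ w.tail := suffix_tail_of_lt (h4.trans hs) (by omega)
    have := hP.2.2 R h5 hR.2.1
    omega
  have h4 : s <:+ R := List.suffix_of_suffix_length_le hsv (hR.1.trans (List.tail_suffix v)) h3.le
  have h5 : s.reverse <+: R := by
    rw [← hR.2.1]
    exact List.reverse_prefix.2 h4
  obtain ⟨c, hc⟩ := exists_cons_suffix hv0 hR.1
  refine ⟨c, Or.inr ?_⟩
  rw [List.reverse_append, List.reverse_singleton, List.singleton_append]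
  have h6 : c :: s.reverse <+: c :: R := List.cons_prefix_cons.2 ⟨rfl, h5⟩
  exact h6.isInfix.trans hc.isInfix

theorem rext {w v s P : List α} {a : α} (hv : Rich v) (hs : s <:+ w)
    (hsw : s.length < w.length) (hP : IsLps w.tail P) (hPs : P.length < s.length)
    (hin : (a :: (P ++ [a])) <:+: v) (hsv : Fr s v) : ∃ c, Fr (s ++ [c]) v := by
  rcases hsv with h | h
  · exact rext_aux hv hs hsw hP hPs hin h
  · have h1 : (a :: (P ++ [a])) <:+: v.reverse := by
      rw [infix_reverse_iff, aPa_rev hP.2.1]
      exact hin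
    obtain ⟨c, hc⟩ := rext_aux (rich_reverse hv) hs hsw hP hPs h1 (infix_reverse_iff.2 h)
    exact ⟨c, Fr_rev_right.1 hc⟩

/-- the word `w` ends with `z` or its reversal, and this can be prolonged inside `v` -/
def Jn (w v z : List α) : Prop := ∃ z', Eqr z' z ∧ z' <:+ w ∧ ∃ c, Fr (z' ++ [c]) v

/-- the main step: if the palindromic step creates a palindrome of `v`, then joining is
possible -/
theorem Gd.star {w v z P : List α} {a : α} (h : Gd w v z) (hw0 : w ≠ []) (hwv : ¬ Fr w v)
    (hP : IsLps w.tail P) (haP : (a :: P) <:+ w) (hin : (a :: (P ++ [a])) <:+: v) : Jn w v z := by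
  obtain ⟨s, hs, hsv, hmax⟩ := exists_longest_suffix w (fun s => Fr s v)
    ⟨a :: P, haP, Or.inl ((List.prefix_append (a :: P) [a]).isInfix.trans hin)⟩
  have h1 : (a :: P).length ≤ s.length :=
    hmax _ haP (Or.inl ((List.prefix_append (a :: P) [a]).isInfix.trans hin))
  rw [List.length_cons] at h1
  have hsw : s.length < w.length := by
    rcases Nat.lt_or_ge s.length w.length with h2 | h2
    · exact h2
    · exfalso
      have : s = w := hs.eq_of_length (le_antisymm hs.length_le h2)
      rw [this] at hsv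
      exact hwv hsv
  have hPs' : P <:+ s := List.suffix_of_suffix_length_le (hP.1.trans (List.tail_suffix w)) hs
    (by omega)
  -- `s` is a factor of `z`
  have hsz : Fr s z := Fr_of_pl h.1 (Or.inl hs.isInfix) (Or.inl h.2.2.1)
    (fun p hp => h.2.2.2.2 p (Pl_mono hs.isInfix hp) (hsv.pl hp))
  -- occurrence of `z` or its reversal in the tail
  obtain ⟨z', hz', hzt⟩ : ∃ z', Eqr z' z ∧ z' <:+: w.tail := by
    rcases infix_cases h.2.2.1 with h2 | h2
    · exact ⟨z, Or.inl rfl, h2⟩
    · have hzw : z.length < w.length := by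
        rcases Nat.lt_or_ge z.length w.length with h3 | h3
        · exact h3
        · exfalso
          have : z = w := h2.eq_of_length (le_antisymm h2.length_le h3)
          apply hwv
          rw [← this]
          exact h.2.2.2.1
      have h3 : z <+: w.dropLast := prefix_dropLast_of_lt h2 hzw
      by_cases hpal : w.reverse = w
      · refine ⟨z.reverse, Or.inr rfl, ?_⟩
        have h4 : z.reverse <:+ w := by
          rw [← hpal]
          exact List.reverse_suffix.2 h2
        exact (suffix_tail_of_lt h4 (by rw [List.length_reverse]; exact hzw)).isInfix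
      · exfalso
        have hPw : IsLps w P := by
          refine ⟨hP.1.trans (List.tail_suffix w), hP.2.1, ?_⟩
          intro q hq hqq
          rcases Nat.lt_or_ge q.length w.length with h4 | h4
          · exact hP.2.2 q (suffix_tail_of_lt hq h4) hqq
          · exfalso
            have : q = w := hq.eq_of_length (le_antisymm hq.length_le h4)
            rw [this] at hqq
            exact hpal hqq
        apply rich_lps hw0 h.1 hPw
        have h4 : P ∈ Pl z := hsz.pl ⟨hPs'.isInfix, hP.2.1⟩
        exact h4.1.trans h3.isInfix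
  have hzs : z' <:+ w.tail := by
    rcases infix_cases' hzt with h2 | h2
    · exfalso
      have ht0 : w.tail ≠ [] := by
        intro h3
        have := congrArg List.length h3
        rw [List.length_tail, List.length_nil] at this
        omega
      apply rich_lps ht0 (rich_infix h.1 (List.tail_suffix w).isInfix) hP
      have h4 : P ∈ Pl z := hsz.pl ⟨hPs'.isInfix, hP.2.1⟩
      rw [← hz'.pl] at h4
      exact h4.1.trans h2
    · exact h2
  have hzw : z' <:+ w := hzs.trans (List.tail_suffix w)
  have hzv : Fr z' v := hz'.fr_left.2 h.2.2.2.1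
  have h2 : z'.length ≤ s.length := hmax z' hzw hzv
  have h3 : s.length ≤ z'.length := by
    rw [hz'.length]
    exact hsz.length_le
  have h4 : z' = s := suffix_eq_of_length hzw hs (le_antisymm h2 h3)
  refine ⟨z', hz', hzw, ?_⟩
  rw [h4]
  exact rext h.2.1 hs hsw hP (by omega) hin hsv

/-- one step forward -/
theorem Gd.progress {w v z P : List α} {a : α} (h : Gd w v z) (hw0 : w ≠ [])
    (hP : IsLps w.tail P) (haP : (a :: P) <:+ w) : (Fr w v ∨ Jn w v z) ∨ Gd (w ++ [a]) v z := by
  by_cases hwv : Fr w v
  · exact Or.inl (Or.inl hwv)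
  · by_cases hin : (a :: (P ++ [a])) <:+: v
    · exact Or.inl (Or.inr (h.star hw0 hwv hP haP hin))
    · exact Or.inr (h.pstep hP haP hin)

end Pool.Agent.RichC
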