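import Pool.Agent.RichC.Step

/-!
MP_086d3c_co: walks of palindromic steps and runs of joining steps.
-/

namespace Pool.Agent.RichC

open Pool.Agent.RichW (Rich rich_infix rich_reverse rich_prefix rich_nil)

variable {α : Type*}

theorem lpp_step {w P : List α} {a : α} (hw0 : w ≠ []) (hP : IsLps w.tail P)
    (haP : (a :: P) <:+ w.tail) : IsLps (w ++ [a]).tail (a :: (P ++ [a])) := by
  have ht : (w ++ [a]).tail = w.tail ++ [a] := by
    obtain ⟨b, w', rfl⟩ := List.exists_cons_of_ne_nil hw0
    rfl
  rw [ht]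
  refine ⟨?_, aPa_rev hP.2.1, ?_⟩
  · obtain ⟨x, hx⟩ := haP
    exact ⟨x, by rw [← hx]; simp⟩
  · intro q hq hqq
    rw [List.length_cons, List.length_append, List.length_singleton]
    rcases List.eq_nil_or_concat' q with rfl | ⟨q0, d, rfl⟩
    · simp
    have h1 : d = a ∧ q0 <:+ w.tail := by
      obtain ⟨x, hx⟩ := hq
      rw [← List.append_assoc] at hx
      have h1 := List.append_inj' hx rfl
      exact ⟨by simpa using h1.2, ⟨x, h1.1⟩⟩
    obtain ⟨rfl, hq0⟩ := h1
    rcases q0 with _ | ⟨e, q'⟩
    · simp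
    have h2 : q'.reverse = q' := by
      have h5 : d :: (q'.reverse ++ [e]) = e :: (q' ++ [d]) := by
        have h6 : (e :: q' ++ [d]).reverse = d :: (q'.reverse ++ [e]) := by simp
        rw [← h6, hqq]
        rfl
      rw [List.cons.injEq] at h5
      exact (List.append_inj' h5.2 rfl).1
    have h3 : q' <:+ w.tail := (List.suffix_cons e q').trans hq0
    have := hP.2.2 q' h3 h2
    simp only [List.length_cons, List.length_append, List.length_nil]
    omega

theorem lpp_walk {w P x : List α} (hP : IsLps w.tail P) (hx : w = x ++ P) :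
    ∀ x2 x1, x = x1 ++ x2 → x1 ≠ [] →
      IsLps (w ++ x2.reverse).tail (x2 ++ (P ++ x2.reverse)) := by
  intro x2
  induction x2 with
  | nil =>
    intro x1 _ _
    simpa using hP
  | cons a x2 ih =>
    intro x1 hx1 hne
    have h1 := ih (x1 ++ [a]) (by rw [hx1]; simp) (by simp)
    obtain ⟨b, x1', rfl⟩ := List.exists_cons_of_ne_nil hne
    have h2 : (a :: (x2 ++ (P ++ x2.reverse))) <:+ (w ++ x2.reverse).tail := by
      refine ⟨x1', ?_⟩
      rw [hx, hx1]
      simp
    have h3 := lpp_step (by rw [hx, hx1]; simp) h1 h2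
    rw [List.reverse_cons, ← List.append_assoc]
    have h4 : a :: x2 ++ (P ++ (x2.reverse ++ [a])) = a :: (x2 ++ (P ++ x2.reverse) ++ [a]) := by
      simp
    rw [h4]
    exact h3

/-- a walk of palindromic steps -/
theorem Gd.walk {w v z P x : List α} (h : Gd w v z) (hP : IsLps w.tail P)
    (hx : w = x ++ P) : ∀ x2 x1, x = x1 ++ x2 →
      (∃ y, y <+: x2.reverse ∧ Gd (w ++ y) v z ∧ (Fr (w ++ y) v ∨ Jn (w ++ y) v z)) ∨
        Gd (w ++ x2.reverse) v z := by
  intro x2
  induction x2 with
  | nil =>
    intro x1 _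
    right
    simpa using h
  | cons a x2 ih =>
    intro x1 hx1
    rcases ih (x1 ++ [a]) (by rw [hx1]; simp) with ⟨y, h1, h2, h3⟩ | h1
    · left
      refine ⟨y, h1.trans ?_, h2, h3⟩
      rw [List.reverse_cons]
      exact List.prefix_append _ _
    · have h2 := lpp_walk hP hx x2 (x1 ++ [a]) (by rw [hx1]; simp) (by simp)
      have h3 : (a :: (x2 ++ (P ++ x2.reverse))) <:+ w ++ x2.reverse :=
        ⟨x1, by rw [hx, hx1]; simp⟩
      rcases h1.progress (by rw [hx, hx1]; simp) h2 h3 with h4 | h4
      · left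
        refine ⟨x2.reverse, ?_, h1, h4⟩
        rw [List.reverse_cons]
        exact List.prefix_append _ _
      · right
        rw [List.reverse_cons, ← List.append_assoc]
        exact h4

theorem gd_nil {w : List α} (hw : Rich w) : Gd w [] [] :=
  ⟨hw, rich_nil, List.nil_infix, Fr.refl _, fun _ _ hp => hp⟩

theorem fr_nil_right {f : List α} (h : Fr f []) : f = [] := by
  have := h.length_le
  rw [List.length_nil] at this
  exact List.length_eq_zero_iff.1 (by omega)

/-- palindromic prolongations of rich words are rich -/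
theorem rich_walk {w P x : List α} (hw : Rich w) (hw0 : w ≠ []) (hP : IsLps w.tail P)
    (hx : w = x ++ P) (x1 x2 : List α) (hx1 : x = x1 ++ x2) : Rich (w ++ x2.reverse) := by
  rcases (gd_nil hw).walk hP hx x2 x1 hx1 with ⟨y, _, _, h3 | ⟨z', _, _, c, h3⟩⟩ | h1
  · have := fr_nil_right h3
    rw [List.append_eq_nil_iff] at this
    exact absurd this.1 hw0
  · have := fr_nil_right h3
    simp at this
  · exact h1.1

theorem IsLps.tail {w P : List α} (hP : IsLps w P) (hne : P ≠ w) : IsLps w.tail P := by
  refine ⟨?_, hP.2.1, fun q hq hqq => hP.2.2 q (hq.trans (List.tail_suffix w)) hqq⟩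
  apply suffix_tail_of_lt hP.1
  rcases Nat.lt_or_ge P.length w.length with h | h
  · exact h
  · exact absurd (hP.1.eq_of_length (le_antisymm hP.1.length_le h)) hne

/-- the palindromic closure and its initial parts are rich -/
theorem rich_close {w P x : List α} (hw : Rich w) (hP : IsLps w P)
    (hx : w = x ++ P) (x1 x2 : List α) (hx1 : x = x1 ++ x2) : Rich (w ++ x2.reverse) := by
  by_cases hne : P = w
  · have : x = [] := by
      rw [hne] at hx
      have h1 := congrArg List.length hx
      rw [List.length_append] at h1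
      exact List.length_eq_zero_iff.1 (by omega)
    rw [this] at hx1
    have : x2 = [] := (List.append_eq_nil_iff.1 hx1.symm).2
    rw [this]
    simpa using hw
  · have hw0 : w ≠ [] := by
      rintro rfl
      apply hne
      exact List.eq_nil_of_infix_nil hP.1.isInfix
    exact rich_walk hw hw0 (hP.tail hne) hx x1 x2 hx1

theorem Gd.eqr {w v z z' : List α} (h : Gd w v z) (hz' : Eqr z' z) (hzw : z' <:+: w) :
    Gd w v z' := by
  refine ⟨h.1, h.2.1, hzw, hz'.fr_left.2 h.2.2.2.1, ?_⟩
  rw [hz'.pl]
  exact h.2.2.2.2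

/-- a run of joining steps -/
theorem Gd.joins {w v z z' : List α} (h : Gd w v z) (hz' : Eqr z' z) (hzw : z' <:+ w) :
    ∀ s, Fr (z' ++ s) v → Gd (w ++ s) v (z' ++ s) ∧
      (s ≠ [] → ∃ q, IsLps (w ++ s) q ∧ q <:+ z' ++ s) := by
  intro s
  induction s using List.reverseRecOn with
  | nil =>
    intro _
    rw [List.append_nil, List.append_nil]
    exact ⟨h.eqr hz' hzw.isInfix, fun h => absurd rfl h⟩
  | append_singleton s c ih =>
    intro hf
    rw [← List.append_assoc] at hf
    have h1 := ih ((Fr.of_infix (List.prefix_append (z' ++ s) [c]).isInfix).trans hf)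
    have h2 : z' ++ s <:+ w ++ s := by
      obtain ⟨x, hx⟩ := hzw
      exact ⟨x, by rw [← List.append_assoc, hx]⟩
    have h3 := h1.1.join (Or.inl rfl) h2 hf
    rw [← List.append_assoc, ← List.append_assoc]
    exact ⟨h3.1, fun _ => h3.2⟩

end Pool.Agent.RichC
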